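import Pool.Agent.W2helper22.MG.Stm

/-!
# Project MG, piece DEC: the decomposition of a function into slices
-/

set_option autoImplicit false

namespace Pool.Agent.W2helper28.MG

open Finset Pool.Agent.W2helper22.MG

theorem sum_pairs (h : ℕ → ℤ) (n : ℕ) :
    ∑ j ∈ range (2 * n), h j = ∑ k ∈ range n, (h (2 * k) + h (2 * k + 1)) := by
  induction n with
  | zero => rfl
  | succ n ih =>
    rw [show 2 * (n + 1) = 2 * n + 1 + 1 by ring, sum_range_succ, sum_range_succ, ih,
      sum_range_succ (fun k => h (2 * k) + h (2 * k + 1)) n]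
    ring

theorem wt_le {m : ℕ} (x : Fin m → Bool) : wt x ≤ m := by
  unfold wt
  exact (card_filter_le _ _).trans (by rw [card_univ, Fintype.card_fin])

theorem dec : P_DEC := by
  intro b c g hg
  obtain ⟨F, hF⟩ : ∃ F : ℕ → (Fin b → Bool) → Bool,
      ∀ j, F j = if j % 2 = 0 then g (j / 2) else fun x => decide (j / 2 + 1 ≤ wt x) := ⟨_, fun _ => rfl⟩
  obtain ⟨sgn, hs⟩ : ∃ sgn : ℕ → ℤ, ∀ j, sgn j = if j % 2 = 0 then 1 else -1 := ⟨_, fun _ => rfl⟩
  refine ⟨fun j => F j, fun j => sgn j, fun j => ?_, fun j => ?_, fun y => ?_⟩
  · beta_reduce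
    rw [hs]
    by_cases h : (j : ℕ) % 2 = 0
    · left; rw [if_pos h]
    · right; rw [if_neg h]
  · beta_reduce
    rw [hF]
    by_cases h : (j : ℕ) % 2 = 0
    · left; exact ⟨_, by rw [if_pos h]⟩
    · right; exact ⟨_, by rw [if_neg h]⟩
  · beta_reduce
    rw [Fin.sum_univ_eq_sum_range (fun j => sgn j * (if F j y = true then 1 else 0)) (2 * (b + 1)),
      sum_pairs]
    have hterm : ∀ k : ℕ, sgn (2 * k) * (if F (2 * k) y = true then 1 else 0) +
        sgn (2 * k + 1) * (if F (2 * k + 1) y = true then 1 else 0) =
        if wt y = k then (if c y = true then (1 : ℤ) else 0) else 0 := by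
      intro k
      have e1 : 2 * k % 2 = 0 := by omega
      have e2 : (2 * k + 1) % 2 ≠ 0 := by omega
      have e3 : 2 * k / 2 = k := by omega
      have e4 : (2 * k + 1) / 2 = k := by omega
      rw [hs, hs, hF, hF, if_pos e1, if_pos e1, if_neg e2, if_neg e2, e3, e4]
      have h1 := hg k y
      have h2 : (decide (k + 1 ≤ wt y) = true) ↔ k + 1 ≤ wt y := decide_eq_true_iff
      by_cases hk : wt y = k
      · have h3 : ¬ k + 1 ≤ wt y := by omega
        have h4 : (g k y = true) ↔ c y = true := by
          rw [h1]
          constructor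
          · rintro (h | h)
            · exact absurd h h3
            · exact h.2
          · intro h
            exact Or.inr ⟨hk, h⟩
        rw [if_pos hk]
        simp only [h4, h3, decide_false]
        split_ifs <;> simp_all
      · rw [if_neg hk]
        by_cases h3 : k + 1 ≤ wt y
        · have h4 : g k y = true := h1.2 (Or.inl h3)
          simp [h4, h3]
        · have h4 : ¬ g k y = true := by
            rw [h1]
            rintro (h | h)
            · exact h3 h
            · exact hk h.1
          simp only [h4, h3, decide_false]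
          simp
    have hm : wt y ∈ range (b + 1) := by
      rw [mem_range]
      have := wt_le y
      omega
    rw [sum_congr rfl (fun k _ => hterm k), sum_ite_eq, if_pos hm]

end Pool.Agent.W2helper28.MG
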